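import Pool.Agent.H49.P1
import Pool.Agent.H49.Semilin

set_option autoImplicit false

namespace Pool.Agent.Results.MP_2fa0cb_nt.RankTwoNotSemilinear

open Pool.Agent.H49.P1

/-- Q2 is false: there are `f, g, c ∈ ℂ(z)` with `deg f, deg g ≥ 2` whose rank-two recurrence set
is not semi-linear. -/
theorem result :
    ∃ f g c : RatFunc ℂ, 2 ≤ deg f ∧ 2 ≤ deg g ∧
      ¬ IsSemilinearSet {p : ℕ × ℕ | ∃ x : OnePoint ℂ,
        act c x = (act f)^[p.1] x ∧ (act f)^[p.1] x = (act g)^[p.2] x} := by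
  obtain ⟨w, hw⟩ : ∃ w : ℂ, IsPrimitiveRoot w 3 :=
    ⟨_, Complex.isPrimitiveRoot_exp 3 (by norm_num)⟩
  refine ⟨algebraMap (Polynomial ℂ) (RatFunc ℂ) (Polynomial.X ^ 2),
    algebraMap (Polynomial ℂ) (RatFunc ℂ) (Polynomial.X ^ 2),
    algebraMap (Polynomial ℂ) (RatFunc ℂ) (Polynomial.C w) /
      algebraMap (Polynomial ℂ) (RatFunc ℂ) Polynomial.X,
    Pool.Agent.H49.Semilin.deg_sq.ge, Pool.Agent.H49.Semilin.deg_sq.ge, ?_⟩
  rw [Pool.Agent.H49.Semilin.set_eq w (hw.ne_zero (by norm_num))]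
  exact Pool.Agent.H49.Semilin.T_not_semilinear w hw

end Pool.Agent.Results.MP_2fa0cb_nt.RankTwoNotSemilinear
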